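import Pool.Agent.R940.NChFin

/-!
# Chow groups and Tate classes: isomorphism, or an excess

Let `X` be an abelian variety over a finite field, of dimension `d` and with total Betti number
`b = 4 ^ d`, or a product of curves, or any smooth projective variety whose motive is
finite-dimensional in the sense of Kimura (its even Künneth projector is algebraic by Katz and
Messing). Let `m ≥ 1`. The theorem says that one of the following holds.

1. For all finite extensions of the finite field and all `p` the cycle class map

   `CH^p(X ^ m) ⊗ ℚ_ℓ → H^{2p}(X ^ m, ℚ_ℓ(p))^G`

   is an isomorphism (and numerical and homological equivalence agree for `X ^ m`).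

2. For ALL `n ≥ 1` the space `CH^((n + 1) d)(X ^ (2 n + 2))` (over the algebraic closure, with rational
   coefficients) is of infinite dimension, or

   `dim CH^((n + 1) d)(X ^ (2 n + 2)) + t n ≥ (3 - 2 m b ^ (2 m + 2) log (n + 2) / n) ρ n`,

   where `t n` is the dimension of the space of the Tate classes of codimension `(n + 1) d` on
   `X ^ (2 n + 2)` (all of them, over all finite extensions) and `ρ n > 0` is the rank of the group
   of the cycles of this codimension modulo numerical equivalence.

Since `dim CH ≥ ρ n` and `t n ≥ ρ n`, with equalities if the cycle class map is an isomorphism and
homological and numerical equivalence agree, the left hand side would be `2 ρ n` if Q1 has a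
positive answer (for smooth projective varieties). So a single failure of the injectivity or of the
surjectivity of the cycle class map, in any codimension of `X ^ m`, makes the failures on the even powers
of `X` in the middle codimension at least as frequent as all cycles modulo numerical equivalence,
asymptotically and with an explicit error term; and to prove that the cycle class maps are isomorphisms
for `X ^ m` (an isomorphism of the Chow groups with the spaces of Tate classes) it is enough to show that
the inequality `dim CH + t < (3 - ε) ρ` holds for one `n` with `2 m b ^ (2 m + 2) log (n + 2) / n ≤ ε`. The
proof shows more precisely that in the second case the kernel of the map from `CH` to the cycles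
modulo numerical equivalence has a dimension of at least `(1 - o(1)) ρ n`, or `t n ≥ (2 - o(1)) ρ n`.

In the theorem, `𝒱` is the class of the smooth projective varieties over an algebraic closure `k` of the
finite field, `W` a Weil cohomology theory with coefficient field `W.K` (`ℓ`-adic
cohomology), and `Γ` the Galois group of the finite field, acting on the cohomology (`GSys`). `C` is
the theory of the Chow groups (`ChowGrp`), or more generally of the groups of cycles modulo any
adequate equivalence relation which is finer than homological equivalence (`FinerThan`).
`NilPowers` says that the numerically trivial correspondences from `X ^ m` to itself act nilpotently on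
the groups `C`; for Chow groups, and for the varieties above, this is Kimura's theorem. `D` is a divisor
whose top self-intersection is not zero. No conjecture is assumed, and finiteness of the field is not
used either: the theorem is also a statement about `ℚ̄`, for example.

The proof: if the cycle class map is not injective with coefficients in `W.K`, then there is a class in
`C` which is numerically trivial and not zero, and the numerically trivial classes form a theory on
which the correspondences act, to which the growth law of the file `NFin` can be applied. If
a Tate class is not algebraic, or homological and numerical equivalence differ, then there are Tate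
classes orthogonal to all cycles and the index law can be applied to the system of the Tate
classes.
-/

open CategoryTheory AlgebraicGeometry

universe u v w w'

namespace Pool.Agent.Results.MP_3af9db_ag.IsomorphismOrExcess

open Pool.Agent.H914 Pool.Agent.H447 Pool.Agent.W534 Pool.Agent.Y163 Pool.Agent.R940
  VarClass Obj

/-- The cycle class map from the Chow groups to the Tate classes is an isomorphism for a power
of `X`, or there is an excess on both sides. -/
theorem result {k : Type u} [Field k] {𝒱 : VarClass k} {ops : CycleOps 𝒱}
    (W : WeilCohomology.{u, v} ops) (X : 𝒱.Obj) (hX : SignStd W X)
    (D : X.Cycles) (hD : X.IsCyc 1 D) (hbig : Big ops X D)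
    (Γ : Type w') [Group Γ] (G : GSys W Γ)
    (C : ChowGrp.{u, w} ops) (hC : FinerThan C W) (hnil : NilPowers C.toCorrTheory X) :
    (∀ n, 0 < rhoN ops X n ∧ rhoN ops X n ≤ tateNo G (sq X n) ((n + 1) * X.dim) ∧
      (Module.Finite ℚ (C.T (sq X n) ((n + 1) * X.dim)) →
        rhoN ops X n ≤ Module.finrank ℚ (C.T (sq X n) ((n + 1) * X.dim)))) ∧
    ∀ κ, ClBijective C G (pw X κ) ∨
      BothExceed C G X (2 * (κ + 1) * betti W X ^ (2 * κ + 4)) :=
  ⟨fun n => ⟨(tate_excess hX hX hD hbig G.old).1 n, numRank_le_tate n,
    fun _ => le_trans (Nat.le_add_left _ _) (rho_le_chow (X := X) (n := n) hC)⟩,
    fun κ => bijective_or_excess hC hX hD hbig hnil κ⟩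

end Pool.Agent.Results.MP_3af9db_ag.IsomorphismOrExcess
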