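import Pool.Agent.R905.GB.Prime

/-!
# The generalized Tate-Beilinson conjecture for one prime implies it for all primes

`C : Chow V` are the Chow groups `C.CH X i = CH_i(X)_ℚ` of the varieties `X : V` over a finite field
`k`, and `T l : Homology C (F l)` are the `ℓ`-adic homology groups `(T l).E X i = H_{2i}(X̄, ℚ_ℓ(i))`,
for the primes `ℓ : Λ` different from the characteristic, `F ℓ = ℚ_ℓ`, with the Frobenius and the cycle
class maps `cl_i`, linear over `ℚ_ℓ`. `(T l).Iso X i` is the assertion of the problem for `(X, i, ℓ)`:
`cl_i` is an isomorphism onto the invariants of the Frobenius.

The known facts which are used (as properties in the definitions):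

* smooth projective varieties of pure dimension (`SmoothProjective`): Poincaré duality, compatible with
  intersection numbers and Frobenius, and the independence of `ℓ` of the multiplicity of the eigenvalue
  `1` on `H_{2i}(X̄, ℚ_ℓ(i))` (Deligne);
* presentations (`ChowPres`, `HomPres`): right exact sequences of Chow groups and of the generalized
  eigenspaces for the eigenvalue `1` in homology, for a closed subvariety of a variety with its
  complement, and for a proper variety `X` with `X₀ → X`, `X₁ → X₀ ×_X X₀` proper and surjective, and
  `X₀`, `X₁` smooth and projective;
* all varieties can be built in finitely many steps from smooth projective ones (`Built`; de Jong and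
  Nagata);
* each finite set of cycles of dimension `i` is supported on a closed subvariety of dimension at most
  `i` (`HasSupports`).

Theorem. Let `ℓ` be a prime different from the characteristic. If for all varieties `X` over `k` and all
`i` the map `cl_i` is an isomorphism onto the invariants for this prime `ℓ`, then the same is true for
all primes `ℓ'` different from the characteristic, and moreover the eigenvalue `1` of the Frobenius on
`H_{2i}(X̄, ℚ_ℓ'(i))` is semisimple for all `X`, `i`, `ℓ'`.

So it suffices to consider one prime for each finite field in the problem. For smooth projective
varieties the strong form of the Tate conjecture (with numerical equivalence and semisimplicity, that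
is, the statement on the order of the pole of the zeta function) is independent of `ℓ` (Tate); the
conjecture of the problem is about the eigenspace instead of the generalized eigenspace, and about
varieties which may be singular or not proper, for which the independence of `ℓ` of the multiplicities
is not known a priori.

Steps of the proof: (1) the assertion for the complements of closed subvarieties of dimension at most
`i` forces semisimplicity (see `SemisimplicityForced`). (2) For smooth projective `X` the assertion with
semisimplicity in the dimensions `i` and `dim X - i`, for `ℓ`, implies that the pairing of intersection
numbers is non degenerate on `CH_i(X)_ℚ`, and that this is a space of finite dimension equal to the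
multiplicity of the eigenvalue `1`. So for `ℓ'` the map `cl_i` is injective, and its image is
the whole generalized eigenspace. (3) The general case follows by comparison of cokernels, which needs
no information on higher Chow groups.
-/

set_option autoImplicit false

namespace Pool.Agent.Results.MP_3af9db_ag.OnePrime

open Pool.Agent.R905.GB

theorem result {V Λ : Type} {C : Chow V} {F : Λ → Type} [∀ l, Field (F l)]
    [∀ l, Algebra ℚ (F l)] (T : ∀ l : Λ, Homology C (F l))
    (hB : ∀ X, Built T (SmoothProjective T) X)
    (hS : ∀ l X, SmoothProjective T X → ∀ i, HasSupports (T l) X i) (l : Λ)
    (h : ∀ X i, (T l).Iso X i) (l' : Λ) (X : V) (i : ℤ) :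
    (T l').Iso X i ∧ (T l').Semisimple X i :=
  one_prime hB hS l h l' X i

end Pool.Agent.Results.MP_3af9db_ag.OnePrime
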