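import Pool.Agent.R905.GB.Coef

/-!
# In the generalized Beilinson conjecture rational coefficients suffice

`C : Chow V` are the Chow groups `C.CH X i = CH_i(X)_ℚ` of the varieties `X : V` over a finite field,
and `T : Homology C K` are the `ℓ`-adic homology groups `T.E X i = H_{2i}(X̄, ℚ_ℓ(i))`, with the
Frobenius and the cycle class maps `cl_i`, linear over `K = ℚ_ℓ`. `T.Iso X i` is the assertion of the
problem for `(X, i, ℓ)`: the map `cl_i : CH_i(X)_ℚ ⊗ ℚ_ℓ → H_{2i}(X̄, ℚ_ℓ(i))` is injective with image the
invariants.

The injectivity on `CH_i(X)_ℚ ⊗ ℚ_ℓ` is stronger than the injectivity on `CH_i(X)_ℚ`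
(`T.RatInjective X i`), i.e. the assertion that rational and homological equivalence agree. It also
says that cycles which are linearly independent over `ℚ` modulo homological equivalence have classes
which are linearly independent over `ℚ_ℓ`.

Theorem. (1) Let `X` be a variety over a finite field. The map `CH_i(X)_ℚ ⊗ ℚ_ℓ → H_{2i}(X̄, ℚ_ℓ(i))` is
injective if and only if the map `CH_i(X ∖ Z)_ℚ → H_{2i}(X̄ ∖ Z̄, ℚ_ℓ(i))` is injective for all closed
subvarieties `Z` of `X` of dimension at most `i`.

(2) The conjecture Q1 of the problem (for all varieties over the finite field, for the given `ℓ`) is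
equivalent to the following: for all varieties `X` and all `i` rational and homological equivalence
agree on `CH_i(X)_ℚ`, and the classes of cycles span the space of the invariants.

The properties in the definitions which are used: for a closed subvariety `Z` of dimension at most `i`
with complement `U` the sequence `CH_i(Z) → CH_i(X) → CH_i(U) → 0` and the sequence of the generalized
eigenspaces for the eigenvalue `1` in the homology of `Z`, `X`, `U` are exact, and for `Z` this
eigenspace is spanned by classes of cycles (`ClosedPair`); `CH_i(X)_ℚ` is spanned by integral closed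
subvarieties, and finitely many of these have a union `Z`, for which they span `CH_i(Z)_ℚ`
(`HasPrimeCycles`).

Idea of the proof of (1), `⇐`: in a relation `∑ a_k cl(W_k) = 0` with integral closed subvarieties
`W_k` and coefficients in `ℚ_ℓ`, `a_0 ≠ 0`, let `Z` be the union of the `W_k` for `k ≠ 0`. The class of
`W_0` on `X ∖ Z` is zero; so `W_0` is rationally trivial on `X ∖ Z`, and it is rationally equivalent to
a cycle with rational coefficients supported on `Z`. This gives a shorter relation.
-/

set_option autoImplicit false

namespace Pool.Agent.Results.MP_3af9db_ag.RationalCoefficients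

open Pool.Agent.R905.GB

theorem result {V : Type} {C : Chow V} {K : Type} [Field K] [Algebra ℚ K] (T : Homology C K)
    (hP : ∀ X i, HasPrimeCycles T X i) :
    (∀ X i, Function.Injective (T.cl X i) ↔
      ∀ Z U (c : Localization C i Z X U), ClosedPair T c → T.RatInjective U i) ∧
    ((∀ X i, T.Iso X i) ↔ ∀ X i, T.RatInjective X i ∧ T.Spans X i) := by
  refine ⟨fun X i => injective_iff (hP X i), fun h X i => ?_, fun h X i => ?_⟩
  · exact ⟨ratInjective_of_injective (h X i).1, (surj_iff_spans X i).1 (h X i).2⟩
  · exact ⟨(injective_iff (hP X i)).2 fun Z U c _ => (h U i).1,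
      (surj_iff_spans X i).2 (h X i).2⟩

end Pool.Agent.Results.MP_3af9db_ag.RationalCoefficients
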