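import Pool.Agent.R905.GB.Main

/-!
# The generalized Tate-Beilinson conjecture for open subvarieties contains the semisimplicity

`C : Chow V` are the Chow groups `C.CH X i = CH_i(X)_ℚ` of the varieties `X : V` over a finite field,
and `T : Homology C K` are the `ℓ`-adic homology groups `T.E X i = H_{2i}(X̄, ℚ_ℓ(i))`, with the
Frobenius and the cycle class maps `cl_i`, linear over `K = ℚ_ℓ`. `T.Iso X i` is the assertion of the
problem for `(X, i, ℓ)`: `cl_i` is an isomorphism onto the invariants of the Frobenius; `T.Surj X i` is
the surjectivity. `T.Semisimple X i` is the condition `SS_i(X)`: the generalized eigenspace for the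
eigenvalue `1` on `H_{2i}(X̄, ℚ_ℓ(i))` consists of invariants.

`c : Localization C i Z X U` with a term of `ClosedPair T c` is: a closed subvariety `Z` of `X` of
dimension at most `i` with its complement `U` and the localization sequences; the properties are the
exactness of `CH_i(Z) → CH_i(X) → CH_i(U) → 0`, the exactness of the same sequence for the generalized
eigenspaces for the eigenvalue `1` in the homology (as `H_{2i-1}(Z̄, ℚ_ℓ(i))` has weights `≥ 1`), and
that the generalized eigenspace for the eigenvalue `1` on `H_{2i}(Z̄, ℚ_ℓ(i))` is spanned by classes of
cycles (this space has the components of dimension `i` of `Z̄` as basis, permuted by the Frobenius).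
`HasSupports T X i` says that each finite set of cycles of dimension `i` on `X` comes from such a
closed subvariety.

Theorem. Let `X` be a variety for which `cl_i` is an isomorphism onto the invariants. Then `cl_i` is an
isomorphism onto the invariants for all `U = X ∖ Z`, `Z` closed of dimension at most `i`, if and only
if `SS_i(X)` holds. (The implication `⇐` is among the known results in the problem, `⇒` is new as far
as I know.) Moreover, without any assumption on `X`: `cl_i` is surjective for all these `U` if and only
if `cl_i` is surjective for `X` and `SS_i(X)` holds.

So the conjecture of the problem, for all varieties, implies the semisimplicity of the eigenvalue `1`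
on `H_{2i}(X̄, ℚ_ℓ(i))` for all varieties, in particular on `H^{2j}(X̄, ℚ_ℓ(j))` for smooth projective
`X`. It also shows that the conjecture for smooth projective varieties alone would not imply
the conjecture for smooth varieties if the semisimplicity were false.

Idea of the proof of `⇒`: choose `Z` such that its components span the space `A` of all algebraic
classes in `H_{2i}(X̄, ℚ_ℓ(i))`. Then all cycle classes of `U` are zero, so by assumption the Frobenius
has no non zero invariants in `H_{2i}(Ū, ℚ_ℓ(i))`, and therefore no non zero generalized eigenvectors
for the eigenvalue `1`. So the generalized eigenspace of `X` lies in the kernel of the restriction, and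
hence in the image of the generalized eigenspace of `Z`, which consists of algebraic classes.
-/

set_option autoImplicit false

namespace Pool.Agent.Results.MP_3af9db_ag.SemisimplicityForced

open Pool.Agent.R905.GB

theorem result {V : Type} {C : Chow V} {K : Type} [Field K] [Algebra ℚ K] (T : Homology C K)
    (X : V) (i : ℤ) (hS : HasSupports T X i) :
    (T.Iso X i → ((∀ Z U (c : Localization C i Z X U), ClosedPair T c → T.Iso U i) ↔
      T.Semisimple X i)) ∧
    ((∀ Z U (c : Localization C i Z X U), ClosedPair T c → T.Surj U i) ↔
      T.Surj X i ∧ T.Semisimple X i) :=
  ⟨iso_complements_iff X i hS, surj_complements_iff X i hS⟩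

end Pool.Agent.Results.MP_3af9db_ag.SemisimplicityForced
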